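import Pool.Agent.KK.StmtsE

/-!
# Squad KK, row E_CST (StmtE23)
-/

set_option autoImplicit false

namespace Pool.Agent.KK.E.H37

theorem e_cst : StmtE23 := by
  intro k B hk
  have hk0 : (0 : ℝ) < k := by
    have : 0 < k := by omega
    exact_mod_cast this
  have hB : (0 : ℝ) < (B : ℝ) + 1 := by positivity
  have hA : (0 : ℝ) < 8 * (k : ℝ) * 4 ^ k * ((B : ℝ) + 1) := by positivity
  have hA1 : (1 : ℝ) ≤ 8 * (k : ℝ) * 4 ^ k * ((B : ℝ) + 1) := by
    have h1 : (1 : ℝ) ≤ k := by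
      have : 1 ≤ k := by omega
      exact_mod_cast this
    have h2 : (1 : ℝ) ≤ 4 ^ k := one_le_pow₀ (by norm_num)
    have h3 : (1 : ℝ) ≤ (B : ℝ) + 1 := by
      have : (0 : ℝ) ≤ B := Nat.cast_nonneg B
      linarith
    have h4 : (1 : ℝ) ≤ 8 * (k : ℝ) := by linarith
    have h5 : (1 : ℝ) ≤ 8 * (k : ℝ) * 4 ^ k := one_le_mul_of_one_le_of_one_le h4 h2
    exact one_le_mul_of_one_le_of_one_le h5 h3
  obtain ⟨h, hh⟩ : ∃ h : ℝ, h = 1 / (8 * (k : ℝ) * 2 ^ k) := ⟨_, rfl⟩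
  have hh0 : 0 < h := by rw [hh]; positivity
  obtain ⟨G, hG⟩ : ∃ G : ℝ → ℝ, ∀ x, G x = min (x / (8 * (k : ℝ) * 4 ^ k * ((B : ℝ) + 1)))
      (((x * h / (16 * (k : ℝ))) ^ 3) ^ (2 ^ k) / (16 * (k : ℝ))) := ⟨_, fun x => rfl⟩
  obtain ⟨e, he0, hes⟩ : ∃ e : ℕ → ℝ, e 0 = 1 / 2 ∧ ∀ i, e (i + 1) = G (e i) :=
    ⟨fun n => Nat.rec (1 / 2) (fun _ x => G x) n, rfl, fun i => rfl⟩
  have hG0 : ∀ x, 0 < x → 0 < G x := by
    intro x hx
    rw [hG]
    exact lt_min (by positivity) (by positivity)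
  have hG1 : ∀ x, 0 < x → 8 * (k : ℝ) * 4 ^ k * ((B : ℝ) + 1) * G x ≤ x := by
    intro x hx
    have h1 : G x ≤ x / (8 * (k : ℝ) * 4 ^ k * ((B : ℝ) + 1)) := by
      rw [hG]
      exact min_le_left _ _
    rw [le_div_iff₀ hA] at h1
    linarith
  have hG2 : ∀ x, 16 * (k : ℝ) * G x ≤ ((x * h / (16 * (k : ℝ))) ^ 3) ^ (2 ^ k) := by
    intro x
    have h1 : G x ≤ ((x * h / (16 * (k : ℝ))) ^ 3) ^ (2 ^ k) / (16 * (k : ℝ)) := by
      rw [hG]
      exact min_le_right _ _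
    rw [le_div_iff₀ (by positivity)] at h1
    linarith
  have hep : ∀ i, 0 < e i := by
    intro i
    induction i with
    | zero => rw [he0]; norm_num
    | succ i ih => rw [hes]; exact hG0 _ ih
  have hGx : ∀ x, 0 < x → G x ≤ x := by
    intro x hx
    have h1 := hG1 x hx
    have h2 := hG0 x hx
    nlinarith
  have heh : ∀ i, e i ≤ 1 / 2 := by
    intro i
    induction i with
    | zero => rw [he0]
    | succ i ih => rw [hes]; exact (hGx _ (hep i)).trans ih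
  have hC : (0 : ℝ) < 100 * (k : ℝ) * 4 ^ k * ((B : ℝ) + 1) := by positivity
  have hek := hep k
  refine ⟨fun m => e (k - m), fun i => (e (k - i) * h / (16 * (k : ℝ))) ^ 3, h,
    e k * h / (100 * (k : ℝ) * 4 ^ k * ((B : ℝ) + 1)), by positivity, ?_, ?_⟩
  · rw [div_le_iff₀ hC]
    have h1 : h ≤ 1 := by
      rw [hh, div_le_one (by positivity)]
      have h2 : (1 : ℝ) ≤ 2 ^ k := one_le_pow₀ (by norm_num)
      have h3 : (1 : ℝ) ≤ 8 * (k : ℝ) := by
        have : (1 : ℝ) ≤ k := by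
          have : 1 ≤ k := by omega
          exact_mod_cast this
        linarith
      exact one_le_mul_of_one_le_of_one_le h3 h2
    have h2 := heh k
    have h3 : e k * h ≤ 1 / 2 * 1 := mul_le_mul h2 h1 hh0.le (by norm_num)
    nlinarith
  · intro δ hδ hδ0
    refine ⟨?_, ?_, hh0, ?_, ?_, ?_, ?_, ?_, hδ, ?_⟩
    · intro i _
      exact hep _
    · intro i _
      exact heh _
    · rw [hh]
    · intro i hi
      have e1 : k - i = (k - (i + 1)) + 1 := by omega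
      change 8 * (k : ℝ) * 4 ^ k * ((B : ℝ) + 1) * e (k - i) ≤ e (k - (i + 1))
      rw [e1, hes]
      exact hG1 _ (hep _)
    · intro i _ _
      have := hep (k - i)
      positivity
    · intro i _ _
      exact le_rfl
    · intro i hi hik
      have e1 : k - (i - 1) = (k - i) + 1 := by omega
      change 16 * (k : ℝ) * e (k - (i - 1)) ≤ ((e (k - i) * h / (16 * (k : ℝ))) ^ 3) ^ (2 ^ k)
      rw [e1, hes]
      exact hG2 _
    · rw [le_div_iff₀ hC] at hδ0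
      rw [Nat.sub_zero]
      linarith

end Pool.Agent.KK.E.H37
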