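import Pool.Agent.KK.StmtsE

/-!
# Squad KK, row E_ORD (StmtE17)
-/

set_option autoImplicit false

namespace Pool.Agent.KK.E.H37

theorem e_ord (h6 : StmtE06) : StmtE17 := by
  intro V _ _ H X M' p q B δ η hA hN hp hq
  have hc : (M' ∩ X).card + (M' \ X).card = M'.card := Finset.card_inter_add_card_sdiff M' X
  have hD : D H X M' (p + 1 - (M' ∩ X).card) (q + 1 - (M' \ X).card) ≤ η M'.card := by
    by_contra h
    exact hN ⟨hp, hq, not_le.1 h⟩
  refine ⟨fun h => ?_, fun h => ?_⟩
  · have h1 := h6 V H X M' p q B (p + 1 - (M' ∩ X).card) (q - (M' \ X).card) δ hA (by omega)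
    have e1 : p + 1 - (M' ∩ X).card + 1 = p + 2 - (M' ∩ X).card := by omega
    have e2 : q - (M' \ X).card + 1 = q + 1 - (M' \ X).card := by omega
    rw [e1, e2] at h1
    linarith
  · have h1 := h6 V H X M' p q B (p - (M' ∩ X).card) (q + 1 - (M' \ X).card) δ hA (by omega)
    have e1 : p - (M' ∩ X).card + 1 = p + 1 - (M' ∩ X).card := by omega
    have e2 : q + 1 - (M' \ X).card + 1 = q + 2 - (M' \ X).card := by omega
    rw [e1, e2] at h1
    linarith

end Pool.Agent.KK.E.H37
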