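import Pool.Agent.KK.StmtsE

/-!
# Squad KK, row E_WRD (StmtE18)
-/

set_option autoImplicit false

namespace Pool.Agent.KK.E.H37

theorem word_length (p q : ℕ) : (word p q).length = 3 * (p + q + 2) - 2 := by
  simp only [word, low, high, List.length_append, List.length_replicate, List.length_cons,
    List.length_nil]
  omega

theorem word_getD (p q i : ℕ) : (word p q).getD i false = true ↔
    (q ≤ i ∧ i < q + p) ∨ (2 * q + p + 2 ≤ i ∧ i < 2 * q + 2 * p + 4) ∨
      (2 * p + 3 * q + 4 ≤ i ∧ i < 3 * p + 3 * q + 4) := by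
  have h : (word p q).getD i false = (if (q ≤ i ∧ i < q + p) ∨
      (2 * q + p + 2 ≤ i ∧ i < 2 * q + 2 * p + 4) ∨
      (2 * p + 3 * q + 4 ≤ i ∧ i < 3 * p + 3 * q + 4) then true else false) := by
    rw [List.getD_eq_getElem?_getD]
    simp only [word, low, high, List.getElem?_append, List.getElem?_replicate,
      List.getElem?_cons, List.length_append, List.length_replicate, List.length_cons,
      List.length_nil]
    split_ifs <;> first | omega | rfl
  rw [h]
  simp

theorem e_wrd : StmtE18 := by
  intro p q a ha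
  refine ⟨word_length p q, ?_⟩
  simp only [word_getD]
  split_ifs with h1 h2
  · have e : ((Finset.range (p + q + 2)).filter fun i => (q ≤ a + i ∧ a + i < q + p) ∨
        (2 * q + p + 2 ≤ a + i ∧ a + i < 2 * q + 2 * p + 4) ∨
        (2 * p + 3 * q + 4 ≤ a + i ∧ a + i < 3 * p + 3 * q + 4)) =
        Finset.Ico (q - a) (q + p - a) ∪ Finset.Ico (2 * q + p + 2 - a) (p + q + 2) := by
      ext i
      simp only [Finset.mem_filter, Finset.mem_range, Finset.mem_union, Finset.mem_Ico]
      omega
    rw [e, Finset.card_union_of_disjoint, Nat.card_Ico, Nat.card_Ico]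
    · omega
    · rw [Finset.disjoint_left]
      intro i
      simp only [Finset.mem_Ico]
      omega
  · have e : ((Finset.range (p + q + 2)).filter fun i => (q ≤ a + i ∧ a + i < q + p) ∨
        (2 * q + p + 2 ≤ a + i ∧ a + i < 2 * q + 2 * p + 4) ∨
        (2 * p + 3 * q + 4 ≤ a + i ∧ a + i < 3 * p + 3 * q + 4)) =
        Finset.Ico (q + 1) (p + q + 2) := by
      ext i
      simp only [Finset.mem_filter, Finset.mem_range, Finset.mem_Ico]
      omega
    rw [e, Nat.card_Ico]
    omega
  · have e : ((Finset.range (p + q + 2)).filter fun i => (q ≤ a + i ∧ a + i < q + p) ∨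
        (2 * q + p + 2 ≤ a + i ∧ a + i < 2 * q + 2 * p + 4) ∨
        (2 * p + 3 * q + 4 ≤ a + i ∧ a + i < 3 * p + 3 * q + 4)) =
        Finset.Ico (2 * q + p + 2 - a) (2 * q + 2 * p + 4 - a) ∪
          Finset.Ico (2 * p + 3 * q + 4 - a) (p + q + 2) := by
      ext i
      simp only [Finset.mem_filter, Finset.mem_range, Finset.mem_union, Finset.mem_Ico]
      omega
    rw [e, Finset.card_union_of_disjoint, Nat.card_Ico, Nat.card_Ico]
    · omega
    · rw [Finset.disjoint_left]
      intro i
      simp only [Finset.mem_Ico]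
      omega

end Pool.Agent.KK.E.H37
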